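import Mathlib

/-!
# Triples with three consecutive multiplicatively dependent shifts

For every `k ≥ 3` the triple `(2, 2 ^ k - 2, 2 ^ k * (2 ^ k - 2))` is admissible.
-/

set_option autoImplicit false

namespace Pool.Agent.Results.MP_0e3340_nt.InfiniteFamily

/-- The triple `(x, y, z)` of nonzero integers is multiplicatively dependent. -/
def MulDep (x y z : ℤ) : Prop :=
  ∃ k l m : ℤ, ¬ (k = 0 ∧ l = 0 ∧ m = 0) ∧ (x : ℚ) ^ k * (y : ℚ) ^ l * (z : ℚ) ^ m = 1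

/-- Admissible triples, with the three entries in increasing order. -/
def Admissible (a b c : ℤ) : Prop :=
  1 < a ∧ a < b ∧ b < c ∧
    ¬ ((2 = a ∨ 2 = b ∨ 2 = c) ∧ (8 = a ∨ 8 = b ∨ 8 = c)) ∧
    MulDep a b c ∧ MulDep (a + 1) (b + 1) (c + 1) ∧ MulDep (a + 2) (b + 2) (c + 2)

theorem family (k : ℕ) (hk : 3 ≤ k) :
    Admissible 2 (2 ^ k - 2) (2 ^ k * (2 ^ k - 2)) := by
  have h8 : (8 : ℤ) ≤ 2 ^ k := by
    calc (8 : ℤ) = 2 ^ 3 := by norm_num
      _ ≤ 2 ^ k := pow_le_pow_right₀ (by norm_num) hk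
  have hne : (2 : ℤ) ^ k ≠ 10 := by
    intro h
    have h5 : (5 : ℤ) ∣ 2 ^ k := by rw [h]; norm_num
    have h5' : (5 : ℤ) ∣ 2 := Int.Prime.dvd_pow' (by norm_num) h5
    norm_num at h5'
  refine ⟨by norm_num, by linarith, by nlinarith, ?_, ?_, ?_, ?_⟩
  · rintro ⟨-, h | h | h⟩
    · norm_num at h
    · exact hne (by linarith)
    · nlinarith
  · refine ⟨k, 1, -1, by omega, ?_⟩
    have h1 : ((2 ^ k - 2 : ℤ) : ℚ) ≠ 0 := by
      have : (2 ^ k - 2 : ℤ) ≠ 0 := by linarith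
      exact_mod_cast this
    have h2 : ((2 : ℚ)) ^ k ≠ 0 := by positivity
    rw [zpow_neg_one, zpow_one, zpow_natCast]
    push_cast at h1 ⊢
    field_simp
  · refine ⟨0, 2, -1, by omega, ?_⟩
    have h1 : ((2 ^ k - 2 + 1 : ℤ) : ℚ) ≠ 0 := by
      have : (2 ^ k - 2 + 1 : ℤ) ≠ 0 := by linarith
      exact_mod_cast this
    have h3 : (2 ^ k * (2 ^ k - 2) + 1 : ℤ) = (2 ^ k - 2 + 1) ^ 2 := by ring
    rw [h3]
    rw [zpow_zero, one_mul, zpow_neg_one]
    push_cast at h1 ⊢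
    norm_cast
    field_simp
  · refine ⟨k, -2, 0, by omega, ?_⟩
    have h3 : (2 ^ k - 2 + 2 : ℤ) = 2 ^ k := by ring
    rw [h3, zpow_zero, mul_one]
    have h2 : ((2 : ℚ)) ^ k ≠ 0 := by positivity
    have h4 : ((2 + 2 : ℤ) : ℚ) = 2 ^ 2 := by norm_num
    rw [h4, zpow_natCast]
    push_cast
    rw [show (-2 : ℤ) = -((2 : ℕ) : ℤ) by norm_num, zpow_neg, zpow_natCast, ← pow_mul, ← pow_mul,
      mul_comm 2 k]
    exact mul_inv_cancel₀ (by positivity)

/-- There are infinitely many admissible triples `(a, b, c)` with `a < b < c`. -/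
theorem result : {t : ℤ × ℤ × ℤ | Admissible t.1 t.2.1 t.2.2}.Infinite := by
  have hinj : Function.Injective (fun k : ℕ => ((2 : ℤ), (2 : ℤ) ^ (k + 3) - 2,
      (2 : ℤ) ^ (k + 3) * (2 ^ (k + 3) - 2))) := by
    intro i j hij
    have h := congrArg (fun t : ℤ × ℤ × ℤ => t.2.1) hij
    simp only [sub_left_inj] at h
    have := Int.pow_right_injective (a := 2) (by norm_num) h
    omega
  refine (Set.infinite_range_of_injective hinj).mono ?_
  rintro _ ⟨k, rfl⟩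
  exact family (k + 3) (by omega)

end Pool.Agent.Results.MP_0e3340_nt.InfiniteFamily
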